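import Pool.Agent.MP_39ed1d_co.H76.Defs

/-! Boundary information from the winding of the symmetric product. -/

namespace Pool.Agent.MP_39ed1d_co.H24

open Pool.Agent.MP_39ed1d_co.H76 Complex Finset

theorem choose_id {j k M : ℕ} (h : j + k = M + 1) :
    j.choose 2 + (M + 1).choose 2 = j * M + k.choose 2 := by
  have h1 : (j : ℚ) + k = M + 1 := by exact_mod_cast h
  have h2 : ((j.choose 2 + (M + 1).choose 2 : ℕ) : ℚ) = ((j * M + k.choose 2 : ℕ) : ℚ) := by
    push_cast
    rw [Nat.cast_choose_two, Nat.cast_choose_two, Nat.cast_choose_two]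
    push_cast
    have h3 : (k : ℚ) = M + 1 - j := by linarith
    rw [h3]; ring
  exact_mod_cast h2

theorem uu_geom {w : ℂ} {c : ℝ} (hc : 2 * (c : ℂ) * w = w ^ 2 + 1) (n : ℕ) :
    w ^ n * (w ^ 2 - 1) * uu c n = w * (w ^ (2 * n) - 1) := by
  induction n using Nat.twoStepInduction with
  | zero => simp [uu_zero]
  | one => simp [uu_one]
  | more n h1 h2 =>
    rw [uu_succ]
    push_cast
    linear_combination (w ^ 2 + 1) * h2 - w ^ 2 * h1 +
      w ^ (n + 1) * (w ^ 2 - 1) * (uu c (n + 1) : ℂ) * hc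

/-- one antidiagonal of the Cauchy product -/
theorem cauchy_term {y y' : ℂ} (hy : y * y' = 1) (x x' : ℂ) (M : ℕ) :
    ∑ j ∈ range (M + 1 + 1), ee y j * x ^ j * (ee y' (M + 1 - j) * x' ^ (M + 1 - j)) =
      y' ^ (M + 1).choose 2 * (y ^ M * x + x') ^ (M + 1) / (M + 1).factorial := by
  rw [add_pow, mul_sum, sum_div]
  refine sum_congr rfl fun j hj => ?_
  obtain ⟨k, hk⟩ : ∃ k, j + k = M + 1 := ⟨M + 1 - j, by have := mem_range.1 hj; omega⟩
  have e1 : M + 1 - j = k := by omega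
  have e2 : y ^ j.choose 2 * y' ^ k.choose 2 = y' ^ (M + 1).choose 2 * y ^ (j * M) := by
    calc y ^ j.choose 2 * y' ^ k.choose 2
        = y ^ j.choose 2 * y' ^ k.choose 2 * (y * y') ^ (M + 1).choose 2 := by rw [hy]; simp
      _ = y' ^ (M + 1).choose 2 * y ^ (j.choose 2 + (M + 1).choose 2) * y' ^ k.choose 2 := by
          rw [mul_pow, pow_add]; ring
      _ = y' ^ (M + 1).choose 2 * y ^ (j * M) * (y * y') ^ k.choose 2 := by
          rw [choose_id hk, mul_pow, pow_add]; ring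
      _ = _ := by rw [hy]; simp
  have e3 : (((M + 1).choose j : ℕ) : ℂ) * j.factorial * k.factorial = (M + 1).factorial := by
    have := Nat.choose_mul_factorial_mul_factorial (n := M + 1) (k := j) (by omega)
    rw [e1] at this
    exact_mod_cast this
  have f1 : (j.factorial : ℂ) ≠ 0 := by exact_mod_cast j.factorial_ne_zero
  have f2 : (k.factorial : ℂ) ≠ 0 := by exact_mod_cast k.factorial_ne_zero
  have f3 : (((M + 1).choose j : ℕ) : ℂ) ≠ 0 := by
    exact_mod_cast (Nat.choose_pos (by omega)).ne'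
  rw [e1, ← e3, ee, ee, mul_pow, ← pow_mul, mul_comm M j]
  field_simp
  linear_combination (x ^ j * x' ^ k) * e2

theorem conj_dE (y x : ℂ) : (starRingEnd ℂ) (dE y x) = dE ((starRingEnd ℂ) y) ((starRingEnd ℂ) x) := by
  unfold dE
  rw [conj_tsum]
  refine tsum_congr fun m => ?_
  simp [ee]

/-- the product identity -/
theorem prod_id {w : ℂ} {c : ℝ} (hw : ‖w‖ = 1) (hc : 2 * (c : ℂ) * w = w ^ 2 + 1)
    (h1 : w ^ 2 ≠ 1) (τ : ℂ) :
    dE (w ^ 2) (w ^ 2 * τ / (w ^ 2 - 1)) *
      (starRingEnd ℂ) (dE (w ^ 2) (w ^ 2 * (starRingEnd ℂ) τ / (w ^ 2 - 1))) = GG c τ := by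
  set y := w ^ 2 with hy
  have hyn : ‖y‖ = 1 := by rw [hy, norm_pow, hw, one_pow]
  have hyy : y * (starRingEnd ℂ) y = 1 := by
    rw [mul_conj, normSq_eq_norm_sq, hyn]; simp
  have hy1 : y - 1 ≠ 0 := sub_ne_zero.2 h1
  have hw0 : w ≠ 0 := by rintro rfl; simp at hw
  have hy0 : y ≠ 0 := pow_ne_zero _ hw0
  have hcy : (starRingEnd ℂ) y = y⁻¹ := eq_inv_of_mul_eq_one_right hyy
  have hx' : (starRingEnd ℂ) (y * (starRingEnd ℂ) τ / (y - 1)) = -(τ / (y - 1)) := by
    have h2 : y⁻¹ - 1 ≠ 0 := by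
      rw [sub_ne_zero]
      intro h
      exact h1 (inv_eq_one.1 h)
    simp only [map_div₀, map_mul, map_sub, map_one, conj_conj, hcy]
    have h3 : (1 - y) ≠ 0 := fun h => hy1 (by linear_combination -h)
    field_simp
    ring
  rw [conj_dE, hx', dE, dE, tsum_mul_tsum_eq_tsum_sum_range_of_summable_norm
    (summable_dE hyn.le _) (summable_dE (by rw [norm_conj]; exact hyn.le) _), GG]
  refine tsum_congr fun N => ?_
  rcases N with _ | M
  · simp [ee_zero]
  · rw [cauchy_term hyy]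
    congr 1
    have e1 : y ^ M * (y * τ / (y - 1)) + -(τ / (y - 1)) = w ^ M * (τ * uu c (M + 1)) := by
      have h3 := uu_geom hc (M + 1)
      rw [← hy, pow_mul, ← hy] at h3
      field_simp
      apply mul_left_cancel₀ hw0
      linear_combination (-τ) * h3
    have e2 : (w ^ M) ^ (M + 1) = y ^ (M + 1).choose 2 := by
      rw [hy, ← pow_mul, ← pow_mul]
      congr 1
      have := choose_id (j := M + 1) (k := 0) (M := M) rfl
      simp only [Nat.choose_eq_zero_of_lt (by norm_num : 0 < 2)] at this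
      rw [mul_comm M]; omega
    rw [e1, mul_pow, e2, ← mul_assoc, ← mul_pow, mul_comm _ y, hyy, one_pow, one_mul]

theorem polar (r : ℝ) (hr : 0 ≤ r) (z : ℂ) :
    (r : ℂ) * exp z = ‖(r : ℂ) * exp z‖ * exp (z.im * I) := by
  rw [norm_mul, norm_real, Real.norm_of_nonneg hr, norm_exp]
  push_cast
  rw [mul_assoc, ← exp_add, re_add_im]

/-- a logarithm along the circle -/
theorem exists_circle_log {F : ℂ → ℂ} (hF : Differentiable ℂ F) {R : ℝ}
    (h0 : ∀ a : ℝ, F (R * exp (a * I)) ≠ 0) :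
    ∃ L : ℝ → ℂ, Continuous L ∧ L 0 = 0 ∧ (∀ a : ℝ, F (R * exp (a * I)) = F R * exp (L a)) ∧
      L Real.pi - L (-Real.pi) = ∮ z in C(0, R), deriv F z / F z := by
  have hcm : ∀ a : ℝ, circleMap 0 R a = R * exp (a * I) := fun a => by simp [circleMap]
  set f : ℝ → ℂ := fun b => deriv (circleMap 0 R) b •
    (deriv F (circleMap 0 R b) / F (circleMap 0 R b)) with hf
  have hfc : Continuous f := by
    simp only [hf, deriv_circleMap]
    refine ((continuous_circleMap 0 R).mul continuous_const).smul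
      ((hF.deriv.continuous.comp (continuous_circleMap 0 R)).div
        (hF.continuous.comp (continuous_circleMap 0 R)) fun b => ?_)
    rw [hcm]; exact h0 b
  have hL : ∀ a, HasDerivAt (fun a => ∫ b in (0 : ℝ)..a, f b) (f a) a := fun a =>
    (hfc.integral_hasStrictDerivAt 0 a).hasDerivAt
  refine ⟨fun a => ∫ b in (0 : ℝ)..a, f b,
    continuous_iff_continuousAt.2 fun a => (hL a).continuousAt, by simp, fun a => ?_, ?_⟩
  · have hd : ∀ a, HasDerivAt
        (fun a => F (circleMap 0 R a) * exp (-(∫ b in (0 : ℝ)..a, f b))) 0 a := fun a => by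
      have d1 : HasDerivAt (fun a => F (circleMap 0 R a))
          (deriv F (circleMap 0 R a) * (circleMap 0 R a * I)) a :=
        (hF _).hasDerivAt.comp a (hasDerivAt_circleMap 0 R a)
      refine (d1.mul (hL a).neg.cexp).congr_deriv ?_
      have h1 : F (circleMap 0 R a) ≠ 0 := by rw [hcm]; exact h0 a
      simp only [hf, deriv_circleMap, smul_eq_mul, Pi.neg_apply]
      field_simp
      ring
    have hc := is_const_of_deriv_eq_zero (fun a => (hd a).differentiableAt)
      (fun a => (hd a).deriv) a 0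
    simp only [hcm, intervalIntegral.integral_same, neg_zero, exp_zero, mul_one, ofReal_zero,
      zero_mul] at hc
    rw [← hc, mul_assoc, ← exp_add, neg_add_cancel, exp_zero, mul_one]
  · have hp : Function.Periodic f (2 * Real.pi) := fun b => by
      simp only [hf, deriv_circleMap, periodic_circleMap 0 R b]
    have h1 := hp.intervalIntegral_add_eq (-Real.pi) 0
    rw [zero_add, show -Real.pi + 2 * Real.pi = Real.pi by ring] at h1
    simp only
    rw [intervalIntegral.integral_interval_sub_left (hfc.intervalIntegrable _ _)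
      (hfc.intervalIntegrable _ _), h1]
    rfl

/-- exactly one zero -/
theorem one_zero {F : ℂ → ℂ} (hF : Differentiable ℂ F) {c R : ℝ} (hG : Good c R)
    (hp : ∀ τ, F τ * (starRingEnd ℂ) (F ((starRingEnd ℂ) τ)) = GG c τ) :
    ∃ (a : ℂ) (g : ℂ → ℂ), ‖a‖ < R ∧ Differentiable ℂ g ∧ (∀ z, F z = (z - a) * g z) ∧
      (∀ z, ‖z‖ ≤ R → g z ≠ 0) ∧ -a ∈ slitPlane := by
  obtain ⟨hR, ⟨k, hk2, hk14, hI⟩, hx⟩ := hG
  have hpi := Real.pi_pos
  have hconj : ∀ a : ℝ, (starRingEnd ℂ) (R * exp (a * I)) = R * exp ((-a : ℝ) * I) := fun a => by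
    rw [map_mul, conj_ofReal, ← exp_conj, map_mul, conj_ofReal, conj_I]
    push_cast
    ring_nf
  have hsph : ∀ z : ℂ, ‖z‖ = R → F z ≠ 0 := fun z hz h => by
    have hz' : z = R * exp (arg z * I) := by rw [← hz, norm_mul_exp_arg_mul_I]
    rcases le_total 0 (arg z) with ha | ha
    · refine hI.1 (arg z) ⟨ha, arg_le_pi z⟩ ?_
      simp only
      rw [← hp, ← hz', h, zero_mul]
    · refine hI.1 (-arg z) ⟨by linarith, by linarith [neg_pi_lt_arg z]⟩ ?_
      simp only
      rw [← hp, hconj, neg_neg, ← hz', h, map_zero, mul_zero]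
  have h0 : ∀ a : ℝ, F (R * exp (a * I)) ≠ 0 := fun a => hsph _ (by
    rw [norm_mul, norm_exp_ofReal_mul_I, norm_real, Real.norm_of_nonneg hR.le, mul_one])
  have hF0 : F 0 ≠ 0 := fun h => hx 0 le_rfl hR.le (by rw [← hp, ofReal_zero, h, zero_mul])
  obtain ⟨s, g, hs, hg, hFs, hg0⟩ := factor F hF hF0 R hR
  have hzero : ∀ a ∈ s, F a = 0 := fun a ha => by
    rw [hFs, Multiset.prod_eq_zero (Multiset.mem_map.2 ⟨a, ha, sub_self a⟩), zero_mul]
  have hs' : ∀ a ∈ s, ‖a‖ < R := fun a ha =>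
    lt_of_le_of_ne (hs a ha) fun h => hsph a h (hzero a ha)
  have hw := wind hR (φ := fun _ => 1) (differentiable_const 1).diffContOnCl hg hg0 s F hs' hFs
  simp only [one_mul, Multiset.map_const', Multiset.sum_replicate, nsmul_eq_mul, mul_one] at hw
  obtain ⟨L, hLc, hL0, hL, hLpi⟩ := exists_circle_log hF h0
  have hA := hI.2 (fun a => (L a + (starRingEnd ℂ) (L (-a))).im)
    (by fun_prop) (by simp [hL0]) (fun a _ => by
      have e : GG c (R * exp (a * I)) =
          (normSq (F R) : ℝ) * exp (L a + (starRingEnd ℂ) (L (-a))) := by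
        rw [← hp, hconj, hL, hL, map_mul, ← exp_conj, exp_add, ← mul_conj]
        ring
      beta_reduce
      rw [e]
      exact polar _ (normSq_nonneg _) _)
  have hApi : (L Real.pi + (starRingEnd ℂ) (L (-Real.pi))).im = 2 * Real.pi * s.card := by
    have h1 := congrArg im (hLpi.trans hw)
    simp only [sub_im, mul_im, mul_re, re_ofNat, ofReal_re, im_ofNat, ofReal_im, I_re, I_im,
      natCast_im, natCast_re] at h1
    rw [add_im, conj_im]
    linarith
  simp only [hApi] at hA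
  have hcard : s.card = 1 := by
    have e1 : (2 : ℝ) ≤ k := by exact_mod_cast hk2
    have e2 : (k : ℝ) ≤ 14 := by exact_mod_cast hk14
    rw [abs_lt] at hA
    have e3 : (0 : ℝ) < s.card := by
      by_contra hn
      nlinarith [hA.1]
    have e4 : (s.card : ℝ) < 2 := by
      by_contra hn
      nlinarith [hA.2]
    have e5 : 0 < s.card := by exact_mod_cast e3
    have e6 : s.card < 2 := by exact_mod_cast e4
    omega
  obtain ⟨a, rfl⟩ := Multiset.card_eq_one.1 hcard
  have ha := hs' a (Multiset.mem_singleton_self a)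
  refine ⟨a, g, ha, hg, fun z => by simpa using hFs z, hg0, ?_⟩
  by_contra hn
  rw [mem_slitPlane_iff] at hn
  push Not at hn
  have h1 : 0 ≤ a.re := by have := hn.1; rw [neg_re] at this; linarith
  have h2 : a.im = 0 := by have := hn.2; rw [neg_im] at this; linarith
  have h3 : (a.re : ℂ) = a := by apply Complex.ext <;> simp [h2]
  refine hx a.re h1 ((re_le_norm a).trans ha.le) ?_
  rw [← hp, h3, hzero a (Multiset.mem_singleton_self a), zero_mul]

theorem BI_of (h : ∀ φ : ℝ, 0 < φ → φ ≤ Real.pi / 2 → ∃ R : ℝ, Good (Real.cos φ) R ∧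
    ∀ v : ℝ, 0 < v → v ≤ 1 / 10 → φ = v ^ 3 / 2 → R ≤ Real.exp (21 / 20 * v ^ 2 - 1)) : BI := by
  intro η hη
  set v0 : ℝ := min (1 / 10) η with hv0
  have hv0p : 0 < v0 := lt_min (by norm_num) hη
  refine ⟨v0 ^ 3 / 2, by positivity, fun y hy hy1 => ?_⟩
  have hpi := Real.pi_pos
  set θ := arg y with hθ
  have hyθ : y = exp (θ * I) := by
    have := norm_mul_exp_arg_mul_I y
    rw [hy] at this
    simpa using this.symm
  have hθ0 : θ ≠ 0 := fun h0 => hy1 (by rw [hyθ, h0]; simp)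
  have hφ0 : 0 < |θ| / 2 := by have := abs_pos.2 hθ0; linarith
  have hφ1 : |θ| / 2 ≤ Real.pi / 2 := by have := abs_arg_le_pi y; linarith
  obtain ⟨R, hG, hR⟩ := h (|θ| / 2) hφ0 hφ1
  set w : ℂ := exp ((θ / 2 : ℝ) * I) with hw
  have hw2 : w ^ 2 = y := by
    rw [hw, ← exp_nat_mul, hyθ]
    congr 1
    push_cast
    ring
  have hwn : ‖w‖ = 1 := norm_exp_ofReal_mul_I _
  have hcos : Real.cos (|θ| / 2) = Real.cos (θ / 2) := by
    rw [← Real.cos_abs (θ / 2), abs_div, abs_two]
  have hc : 2 * (Real.cos (|θ| / 2) : ℂ) * w = w ^ 2 + 1 := by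
    have h1 : exp (-((θ / 2 : ℝ) : ℂ) * I) * w = 1 := by
      rw [hw, ← exp_add]; simp
    rw [hcos, ofReal_cos, two_cos, add_mul, h1, ← hw, sq]
  have hy0 : y ≠ 0 := by rintro rfl; simp at hy
  have hFd : Differentiable ℂ fun τ => dE y (y * τ / (y - 1)) :=
    (differentiable_dE hy.le).comp (by fun_prop)
  obtain ⟨a, g, ha, hg, hF, hg0, hs⟩ := one_zero hFd hG fun τ => by
    have := prod_id hwn hc (by rw [hw2]; exact hy1) τ
    rwa [hw2] at this
  refine ⟨R, y * a, fun t => g (t / y) / y, by rwa [norm_mul, hy, one_mul], by fun_prop,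
    fun t => ?_, fun t ht => ?_, ?_, fun hδ => ?_⟩
  · have h1 := hF (t / y)
    rw [mul_div_cancel₀ t hy0] at h1
    rw [h1]
    field_simp
  · exact div_ne_zero (hg0 _ (by rwa [norm_div, hy, div_one])) hy0
  · rwa [mul_div_cancel_left₀ a hy0]
  · have h1 : ‖y - 1‖ = 2 * Real.sin (|θ| / 2) := by
      rw [hyθ, mul_comm (θ : ℂ), norm_exp_I_mul_ofReal_sub_one, Real.norm_eq_abs, abs_mul,
        abs_two, Real.abs_sin_eq_sin_abs_of_abs_le_pi, abs_div, abs_two]
      rw [abs_div, abs_two]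
      linarith
    have h2 := Real.mul_le_sin hφ0.le hφ1
    have h3 : |θ| / 2 ≤ ‖y - 1‖ := by
      rw [h1]
      have h4 : 1 / 2 ≤ 2 / Real.pi := by
        rw [div_le_div_iff₀ (by norm_num) hpi]
        linarith [Real.pi_le_four]
      nlinarith
    set v : ℝ := |θ| ^ ((3 : ℕ)⁻¹ : ℝ) with hv
    have hv3 : v ^ 3 = |θ| := Real.rpow_inv_natCast_pow (abs_nonneg θ) (by norm_num)
    have hvp : 0 < v := Real.rpow_pos_of_pos (abs_pos.2 hθ0) _
    have hvv : v < v0 := lt_of_pow_lt_pow_left₀ 3 hv0p.le (by linarith)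
    have hv1 : v ≤ 1 / 10 := hvv.le.trans (min_le_left _ _)
    have hv2 : v ≤ η := hvv.le.trans (min_le_right _ _)
    refine (hR v hvp hv1 (by rw [hv3])).trans (Real.exp_le_exp.2 ?_)
    nlinarith

end Pool.Agent.MP_39ed1d_co.H24
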